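import Pool.Agent.F5S.Stmts

/-! F5S, row WBF -/

set_option autoImplicit false

open MeasureTheory Filter Topology

namespace Pool.Agent.F5S.H27

open Pool.Agent.BTL Pool.Agent.F5S

theorem meas_integral {α β : Type} [MeasurableSpace α] [MeasurableSpace β] (μ : Measure β)
    [SFinite μ] (f : α → β → ℝ) (hf : Measurable (fun z : α × β => f z.1 z.2)) :
    Measurable (fun x => ∫ y, f x y ∂μ) :=
  (hf.stronglyMeasurable.integral_prod_right' (ν := μ)).measurable

theorem meas_swap {α β : Type} [MeasurableSpace α] [MeasurableSpace β] (W : β → ℝ)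
    (hW : Measurable W) (g : β → α → ℝ) (hg : Measurable (fun z : β × α => g z.1 z.2)) :
    Measurable (fun z : α × β => W z.2 * g z.2 z.1) :=
  (hW.comp measurable_snd).mul (hg.comp (measurable_snd.prodMk measurable_fst))

theorem wbf (hP : PWFStmt) : WBFStmt := by
  intro L W hL hW hW01
  obtain ⟨h1, h2, h3, h4, h5⟩ := hP L hL
  have hle : ∀ x c, W c * pw L c x ≤ pw L c x := fun x c =>
    mul_le_of_le_one_left (h1 c x) (hW01 c).2
  have hnn : ∀ x c, 0 ≤ W c * pw L c x := fun x c => mul_nonneg (hW01 c).1 (h1 c x)
  refine ⟨?_, ?_, ?_, ?_⟩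
  · have hm : Measurable (fun z : R6 × R6 => pw L z.1 z.2) := h2.measurable
    exact meas_integral (volume : Measure R6) (fun x c => W c * pw L c x)
      (meas_swap W hW (pw L) hm)
  · intro x
    refine ⟨integral_nonneg fun c => hnn x c, ?_⟩
    unfold Wb
    rw [← h4 x]
    exact integral_mono_of_nonneg (Eventually.of_forall fun c => hnn x c) (h3 x)
      (Eventually.of_forall fun c => hle x c)
  · intro x hx
    unfold Wb
    rw [← h4 x]
    refine integral_congr_ae (Eventually.of_forall fun c => ?_)
    show W c * pw L c x = pw L c x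
    by_cases h : pw L c x = 0
    · rw [h, mul_zero]
    · rw [hx c (h5 c x h), one_mul]
  · intro x hx
    by_contra hcon
    push Not at hcon
    apply hx
    unfold Wb
    have h6 : ∀ c, W c * pw L c x = 0 := by
      intro c
      by_cases h : W c = 0
      · rw [h, zero_mul]
      · have h7 : pw L c x = 0 := by
          by_contra h8
          exact hcon c h (h5 c x h8)
        rw [h7, mul_zero]
    simp only [h6, integral_zero]

end Pool.Agent.F5S.H27
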